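import Pool.Agent.H65.G4.Ears

/-!
# The row 2qqmq, corner 1

Neighbours of `u` in cyclic order: `x0` in, `x1` in, `x2` out, `x3` in, `x4` out; `x1 → x0`, quad
`u x2 s x1` (contracted), quad `u x2 . x3`, `x3 → x4`, quad `u x4 . x0`. New arcs `x0 → x3` and
`s → x3` (centre `x3`). The only fact needed off the link: no directed 2-path from `x3` to `s`.
-/

set_option autoImplicit false

namespace Pool.Agent.H93.G4

open Relation Pool.Agent.H13.DA Pool.Agent.H72.G4 Pool.Agent.H21.G4 Pool.Agent.H13.G4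
  Pool.Agent.H55.G4 Pool.Agent.H65.G4

variable {V : Type*}

/-- seven names -/
def nm7 (a0 a1 a2 a3 a4 a5 a6 : V) : ℕ → V
  | 0 => a0
  | 1 => a1
  | 2 => a2
  | 3 => a3
  | 4 => a4
  | 5 => a5
  | _ => a6

theorem nm7_inj {a0 a1 a2 a3 a4 a5 a6 : V} (h01 : a0 ≠ a1) (h02 : a0 ≠ a2) (h03 : a0 ≠ a3)
    (h04 : a0 ≠ a4) (h05 : a0 ≠ a5) (h06 : a0 ≠ a6) (h12 : a1 ≠ a2) (h13 : a1 ≠ a3)
    (h14 : a1 ≠ a4) (h15 : a1 ≠ a5) (h16 : a1 ≠ a6) (h23 : a2 ≠ a3) (h24 : a2 ≠ a4)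
    (h25 : a2 ≠ a5) (h26 : a2 ≠ a6) (h34 : a3 ≠ a4) (h35 : a3 ≠ a5) (h36 : a3 ≠ a6)
    (h45 : a4 ≠ a5) (h46 : a4 ≠ a6) (h56 : a5 ≠ a6) :
    ∀ x y, x < 4 + 3 → y < 4 + 3 → nm7 a0 a1 a2 a3 a4 a5 a6 x = nm7 a0 a1 a2 a3 a4 a5 a6 y →
      x = y := by
  intro x y hx hy h
  interval_cases x <;> interval_cases y <;> simp only [nm7] at h <;>
    first | rfl | exact absurd h ‹_› | exact absurd h.symm ‹_›

theorem chk_2qqmq_1 : chk [(0,0,0,0),(1,0,0,0),(3,0,0,0),(4,0,0,0)]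
    [St.twin 0 true, St.twin 0 false, St.free 38 24] = true := by
  decide +kernel

variable [DecidableEq V] {T : Finset (V × V × V)} {D : V → V → Prop} {a b c : V}

omit [DecidableEq V] in
/-- the far vertex of a quad is not adjacent to `u` -/
theorem nus {u o s i d : V} (hT : Ts T D a b c) (h : Qd T D u o s i d) : ¬ Ar D u s := by
  rintro (k | k)
  · exact hT.pl.tri _ _ _ k h.si h.iu
  · exact hT.pl.tri _ _ _ h.uo h.os k

/-- the row 2qqmq, corner 1 -/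
theorem red_2qqmq_1 [Infinite V] (hM : MCw T D a b c) (hT : Ts T D a b c)
    {u x0 x1 x2 x3 x4 s d : V} (hu : ¬ Tr a b c u) (hg : Good T D u)
    (h : Qd T D u x2 s x1 d) (hb : Pcb T D u x2 s x1 d) (ho : ¬ Tr a b c x2) (hi : ¬ Tr a b c x1)
    (hN : ∀ q, Ar D u q ↔ q = x0 ∨ q = x1 ∨ q = x2 ∨ q = x3 ∨ q = x4)
    (a0 : D x0 u) (a3 : D x3 u) (a4 : D u x4) (r0 : D x1 x0) (r3 : D x3 x4)
    (n02 : ¬ Ar D x0 x2) (n03 : ¬ Ar D x0 x3) (n04 : ¬ Ar D x0 x4) (n13 : ¬ Ar D x1 x3)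
    (n14 : ¬ Ar D x1 x4) (n23 : ¬ Ar D x2 x3) (n24 : ¬ Ar D x2 x4)
    (far : ∀ m, ¬ Wq x2 s x1 d m → m ≠ u → D x3 m → D m s → False) : False := by
  have as := hT.pl.asymm
  have irr : ∀ x, ¬ D x x := fun x h => as x x h h
  have a1 : D x1 u := h.iu
  have a2 : D u x2 := h.uo
  have ne_io : ∀ {x y}, D x u → D u y → x ≠ y := by
    rintro x y h1 h2 rfl
    exact as _ _ h1 h2
  obtain ⟨e1, e2, e3, e4, e5, e6, e7, e8, e9, e10⟩ := h.ne hT
  have e01 : x0 ≠ x1 := fun e => irr x1 (e ▸ r0)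
  have e02 : x0 ≠ x2 := ne_io a0 a2
  have e04 : x0 ≠ x4 := ne_io a0 a4
  have e14 : x1 ≠ x4 := ne_io a1 a4
  have e32 : x3 ≠ x2 := ne_io a3 a2
  have e34 : x3 ≠ x4 := ne_io a3 a4
  have e03 : x0 ≠ x3 := fun e => n04 (Or.inl (e ▸ r3))
  have e13 : x1 ≠ x3 := fun e => n14 (Or.inl (e ▸ r3))
  have e24 : x2 ≠ x4 := fun e => n23 (Or.inr (e ▸ r3))
  have m0 : Ar D u x0 := Or.inr a0
  have m3 : Ar D u x3 := Or.inr a3
  have m4 : Ar D u x4 := Or.inl a4
  have nd : ∀ {x}, Ar D u x → x ≠ d := fun k e => h.nd ⟨u, e ▸ k.symm⟩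
  have nsx : ∀ {x}, Ar D u x → x ≠ s := fun k e => nus hT h (e ▸ k)
  have nux : ∀ {x}, Ar D u x → x ≠ u := fun k e => by
    subst e
    rcases k with k | k <;> exact irr _ k
  -- the far vertex is not adjacent to the survivors
  have nsa : ∀ {x}, Ar D u x → x ≠ x2 → x ≠ x1 → ¬ Ar D x s := by
    intro x k k1 k2 k3
    rcases hb.n2 x (hT.pl.ar_adj k) (hT.pl.ar_adj k3).symm with k4 | k4 | k4
    · exact k1 k4
    · exact k2 k4
    · exact nd k k4
  have fx : ∀ {x}, Ar D u x → x ≠ x2 → x ≠ x1 → rp (Wq x2 s x1 d) s x = x := by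
    intro x k k1 k2
    apply rp_out
    rintro (k3 | k3 | k3 | k3)
    · exact k1 k3
    · exact nsx k k3
    · exact k2 k3
    · exact nd k k3
  have f0 := fx m0 e02 e01
  have f3 := fx m3 e32 e13.symm
  have f4 := fx m4 e24.symm e14.symm
  have fs : rp (Wq x2 s x1 d) s s = s := rp_in (Or.inr (Or.inl rfl))
  have fo : rp (Wq x2 s x1 d) s x2 = s := rp_in (Or.inl rfl)
  have fi : rp (Wq x2 s x1 d) s x1 = s := rp_in (Or.inr (Or.inr (Or.inl rfl)))
  have fb : ∀ {x x'}, x ≠ s → Fb x2 s x1 x x' → x' = x := by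
    rintro x x' k1 (k2 | ⟨k2, _⟩)
    · exact k2
    · exact absurd k2 k1
  have s0 := nsx m0
  have s3 := nsx m3
  have s4 := nsx m4
  set A : V → V → Prop := fun x y => (x = x0 ∧ y = x3) ∨ (x = s ∧ y = x3) with hAdef
  -- arcs between the far vertex and the survivors
  have ns3 : ∀ x', Fb x2 s x1 s x' → ¬ Ar D x3 x' := by
    rintro x' (rfl | ⟨_, rfl | rfl⟩)
    · exact nsa m3 e32 e13.symm
    · exact fun k => n23 k.symm
    · exact fun k => n13 k.symm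
  have ns4 : ∀ x', Fb x2 s x1 s x' → ¬ Ar D x4 x' := by
    rintro x' (rfl | ⟨_, rfl | rfl⟩)
    · exact nsa m4 e24.symm e14.symm
    · exact fun k => n24 k.symm
    · exact fun k => n14 k.symm
  have nmc : ∀ {m}, Nm D u x2 s x1 m → m = s ∨ m = x0 ∨ m = x3 ∨ m = x4 := by
    rintro m (k | ⟨k, k1, k2⟩)
    · exact Or.inl k
    · rcases (hN m).1 k with k3 | k3 | k3 | k3 | k3
      · exact Or.inr (Or.inl k3)
      · exact absurd k3 k2
      · exact absurd k3 k1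
      · exact Or.inr (Or.inr (Or.inl k3))
      · exact Or.inr (Or.inr (Or.inr k3))
  have N0 : Nm D u x2 s x1 x0 := Or.inr ⟨m0, e02, e01⟩
  have N3 : Nm D u x2 s x1 x3 := Or.inr ⟨m3, e32, e13.symm⟩
  have Ns : Nm D u x2 s x1 s := Or.inl rfl
  have E := ears (A := A) hT h hg hb
    (by
      rintro x y (⟨rfl, rfl⟩ | ⟨rfl, rfl⟩)
      · exact ⟨N0, N3, e03⟩
      · exact ⟨Ns, N3, s3.symm⟩)
    (by
      rintro x y (⟨rfl, rfl⟩ | ⟨rfl, rfl⟩)
      · refine ⟨?_, ?_⟩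
        · rintro (⟨k, _⟩ | ⟨k, _⟩)
          · exact e03 k.symm
          · exact s3 k
        · intro x' y' k1 k2 k3
          rw [fb s0 k1, fb s3 k2] at k3
          exact n03 (Or.inr k3)
      · refine ⟨?_, ?_⟩
        · rintro (⟨k, _⟩ | ⟨k, _⟩)
          · exact e03 k.symm
          · exact s3 k
        · intro x' y' k1 k2 k3
          rw [fb s3 k2] at k3
          exact ns3 x' k1 (Or.inl k3))
    (by
      rintro x y m (⟨rfl, rfl⟩ | ⟨rfl, rfl⟩) hm k1 k2 k3 k4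
      · rcases nmc hm with rfl | rfl | rfl | rfl
        · rcases k3 with (⟨k, _⟩ | ⟨k, _⟩) | ⟨x', y', g1, g2, g3⟩
          · exact e03 k.symm
          · exact s3 k
          · rw [fb s3 g1] at g3
            exact ns3 y' g2 (Or.inl g3)
        · exact k1 rfl
        · exact k2 rfl
        · rcases k4 with (⟨k, _⟩ | ⟨k, _⟩) | ⟨x', y', g1, g2, g3⟩
          · exact e04 k.symm
          · exact s4 k
          · rw [fb s4 g1, fb s0 g2] at g3
            exact n04 (Or.inr g3)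
      · rcases nmc hm with rfl | rfl | rfl | rfl
        · exact k1 rfl
        · rcases k3 with (⟨k, _⟩ | ⟨k, _⟩) | ⟨x', y', g1, g2, g3⟩
          · exact e03 k.symm
          · exact s3 k
          · rw [fb s3 g1, fb s0 g2] at g3
            exact n03 (Or.inr g3)
        · exact k2 rfl
        · rcases k4 with (⟨k, _⟩ | ⟨k, _⟩) | ⟨x', y', g1, g2, g3⟩
          · exact e04 k.symm
          · exact s4 k
          · rw [fb s4 g1] at g3
            exact ns4 y' g2 (Or.inl g3))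
    (by
      rintro x y (⟨rfl, rfl⟩ | ⟨rfl, rfl⟩) x' y' k1 k2 k3 k4
      · rw [fb s3 k2] at k4
        exact absurd k4 (as _ _ a3)
      · rw [fb s3 k2] at k4
        exact absurd k4 (as _ _ a3))
    (by
      rintro x m (⟨k, _⟩ | ⟨_, rfl⟩) k1 k2 k3 k4
      · exact s0 k.symm
      · exact far m k1 k2 k3 k4)
    (by
      rintro x m (⟨_, k⟩ | ⟨_, k⟩) k1 k2 k3 k4
      · exact s3 k.symm
      · exact s3 k.symm)
  have hp : Prm x2 s x1 s x2 x1 := Or.inr (Or.inl ⟨rfl, Or.inl ⟨rfl, rfl⟩⟩)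
  refine pc_fill hM hT h hu hp ho hi hb.n1 hb.n2 (A := A) (p0 := x3)
    (Or.inr ⟨hT.pl.ar_adj m3, ?_⟩) ?_ E.1 E.2 ?_
  · rintro (k | k | k | k)
    · exact e32 k
    · exact s3 k
    · exact e13 k.symm
    · exact nd m3 k
  · rintro x y (⟨rfl, rfl⟩ | ⟨rfl, rfl⟩)
    · exact ⟨(ar_re m0).2, (ar_re m3).2, nux m0, nux m3,
        Or.inr ⟨f3, x, hT.pl.ar_adj m0, rfl⟩⟩
    · refine ⟨⟨x2, Or.inr h.os⟩, (ar_re m3).2, e2.symm, nux m3,
        Or.inr ⟨f3, x2, hT.pl.ar_adj (Or.inl a2), ?_⟩⟩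
      rw [fo, fs]
  · intro O hO hE
    have F : ∀ {x y x' y'}, D x' y' → x' ≠ u → y' ≠ u → rp (Wq x2 s x1 d) s x' = x →
        rp (Wq x2 s x1 d) s y' = y → x ≠ y → Ex O x y := by
      intro x y x' y' k1 k2 k3 k4 k5 k6
      exact hE x y ⟨k6, x', y', k4, k5, Or.inl ⟨k1, k2, k3⟩⟩
    obtain ⟨O', o1, o2, o3⟩ := pc_lift hT h chk_2qqmq_1 (by decide) (n := nm7 s x0 x3 x4 x2 x1 u)
      (nm7_inj s0.symm s3.symm s4.symm e5.symm e8 e2.symm e03 e04 e02 e01 (nux m0) e34 e32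
        e13.symm (nux m3) e24.symm e14.symm (nux m4) e6 e1.symm e3.symm) rfl rfl rfl rfl
      (by
        intro x hx
        rcases (hN x).1 (Or.inr hx) with rfl | rfl | rfl | rfl | rfl
        · exact ⟨1, by decide, rfl, by decide⟩
        · exact ⟨5, by decide, rfl, by decide⟩
        · exact absurd hx (as _ _ a2)
        · exact ⟨2, by decide, rfl, by decide⟩
        · exact absurd hx (as _ _ a4))
      (by
        intro x hx
        rcases (hN x).1 (Or.inl hx) with rfl | rfl | rfl | rfl | rfl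
        · exact absurd hx (as _ _ a0)
        · exact absurd hx (as _ _ a1)
        · exact ⟨4, by decide, rfl, by decide⟩
        · exact absurd hx (as _ _ a3)
        · exact ⟨3, by decide, rfl, by decide⟩)
      (A := A) hO hE
      (pre_of (E := [(0,1),(1,2),(0,2),(2,3)]) (F := []) (by
        intro p hp
        simp only [List.mem_cons, List.not_mem_nil, or_false] at hp
        rcases hp with rfl | rfl | rfl | rfl
        · exact F r0 (nux (Or.inr a1)) (nux m0) fi f0 s0.symm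
        · exact hE _ _ ⟨e03, x0, x3, f0, f3, Or.inr (Or.inl ⟨rfl, rfl⟩)⟩
        · exact hE _ _ ⟨s3.symm, s, x3, fs, f3, Or.inr (Or.inr ⟨rfl, rfl⟩)⟩
        · exact F r3 (nux m3) (nux m4) f3 f4 e34) (by simp) _ 0 (by decide +kernel))
    exact ⟨O', o1, o2, fun j x y h1 h2 h3 h4 h5 h6 => o3 j x y h1 h2 h3 h4 h5 h6⟩

end Pool.Agent.H93.G4
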